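import Pool.Agent.Helper24.NR.Defs
import Pool.Agent.Helper53.TX.Far0
import Pool.Agent.Helper20.TX.SqTail
import Pool.Agent.Helper56.TX.MomT
import Pool.Agent.Helper64.TX.Var
import Pool.Agent.Helper25.TX.SsPt
import Pool.Agent.Helper87.TX.Good
import Pool.Agent.Helper57.UG.MmA
import Pool.Agent.Helper99.NR.Comp

/-!
# NR, block B1: the loss from the zeros off the line, one scale
-/

set_option autoImplicit false
open MeasureTheory Set Filter Topology
open Pool.Agent.Helper57.Zeta Pool.Agent.Helper57.LH Pool.Agent.Helper57.ED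
open Pool.Agent.Helper54.LG (za zb qk SS MM)
open Pool.Agent.Helper93.UG (zc sp)
open Pool.Agent.Helper69.UG (XX NX near far)
open Pool.Agent.Helper57.TX (QX DP rs)

namespace Pool.Agent.Helper69.NR

/-- the main term, one scale -/
theorem mm_main69 : ∃ C T₀ : ℝ, 0 < C ∧ ∀ T M t : ℝ, T₀ ≤ T → 1 ≤ M → M ≤ Real.log T → t ∈ Pool.Agent.Helper57.TX.JJ T →
    |MM (XX T M) t - M| ≤ C * (M / Real.log T) := by
  obtain ⟨C, hC, h⟩ := Pool.Agent.Helper57.UG.MM_main
  refine ⟨C + 2, 4, by positivity, fun T M t hT hM hMT ht => ?_⟩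
  have hT0 : 0 < T := by linarith
  obtain ⟨ht1, ht2⟩ := ht
  have ht0 : 0 < t := by linarith
  have hM0 : 0 < M := by linarith
  have hL : 0 < Real.log T := by linarith
  have hX : 1 ≤ XX T M := by
    unfold XX
    rw [le_div_iff₀ hM0]
    linarith
  have hX0 : 0 < XX T M := by linarith
  have hXL : XX T M ≤ Real.log T := by
    unfold XX
    exact div_le_self hL.le hM
  have hexp : Real.exp (XX T M / 2) ≤ t ^ 2 := by
    calc Real.exp (XX T M / 2) ≤ Real.exp (Real.log T) := Real.exp_le_exp.2 (by linarith)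
      _ = T := Real.exp_log hT0
      _ ≤ (T / 2) ^ 2 := by nlinarith
      _ ≤ t ^ 2 := by gcongr
  have h1 := h (XX T M) t hX (by rw [abs_of_pos ht0]; linarith) hexp
  rw [abs_of_pos ht0] at h1
  have e1 : C / XX T M = C * (M / Real.log T) := by
    unfold XX
    field_simp
  have e2 : Real.log t / XX T M = Real.log t * (M / Real.log T) := by
    unfold XX
    field_simp
  have e3 : M = Real.log T * (M / Real.log T) := by field_simp
  rw [e1, e2] at h1
  have hlog2 : Real.log 4 ≤ 2 := by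
    have e4 : Real.log 4 = 2 * Real.log 2 := by
      rw [show (4:ℝ) = 2 ^ 2 by norm_num, Real.log_pow]
      norm_num
    have := Real.log_two_lt_d9
    rw [e4]
    linarith
  have g1 : Real.log t ≤ Real.log T + 2 := by
    have : Real.log t ≤ Real.log (4 * T) := Real.log_le_log ht0 ht2
    rw [Real.log_mul (by norm_num) hT0.ne'] at this
    linarith
  have g2 : Real.log T - 2 ≤ Real.log t := by
    have : Real.log (T / 4) ≤ Real.log t := Real.log_le_log (by positivity) (by linarith)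
    rw [Real.log_div hT0.ne' (by norm_num)] at this
    linarith
  have hq : 0 < M / Real.log T := by positivity
  obtain ⟨q, hqd⟩ : ∃ q, q = M / Real.log T := ⟨_, rfl⟩
  rw [← hqd] at h1 hq e3 ⊢
  have g3 : |Real.log t * q - M| ≤ 2 * q := by
    have e5 : Real.log t * q - M = (Real.log t - Real.log T) * q := by
      rw [sub_mul, ← e3]
    rw [e5, abs_mul, abs_of_pos hq]
    apply mul_le_mul_of_nonneg_right _ hq.le
    rw [abs_le]
    constructor <;> linarith
  calc |MM (XX T M) t - M| = |(MM (XX T M) t - Real.log t * q) + (Real.log t * q - M)| := by ring_nf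
    _ ≤ |MM (XX T M) t - Real.log t * q| + |Real.log t * q - M| := abs_add_le _ _
    _ ≤ C * q + 2 * q := add_le_add h1 g3
    _ = (C + 2) * q := by ring

/-- `A8`, exported -/
theorem ss_tail : ∃ κ M₀ T₀ : ℝ, 0 < κ ∧ 1 ≤ M₀ ∧ ∀ T M : ℝ, T₀ ≤ T → M₀ ≤ M → M ≤ Real.log T →
    volume {t : ℝ | t ∈ Pool.Agent.Helper57.TX.JJ T ∧ M < |SS (XX T M) t|} ≤ ENNReal.ofReal (Real.exp (-(κ * M)) * T) :=
  Pool.Agent.Helper20.TX.ss_tail_of Pool.Agent.Helper56.TX.mom_tail Pool.Agent.Helper64.TX.var_rs Pool.Agent.Helper25.TX.ss_pt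

lemma exp_tail {κ M : ℝ} (hκ : 0 < κ) (hM : 0 < M) : Real.exp (-(κ * M)) ≤ (362880 / κ ^ 9) / M ^ 9 := by
  have h1 := Real.pow_div_factorial_le_exp (κ * M) (by positivity) 9
  have h2 : ((Nat.factorial 9 : ℕ) : ℝ) = 362880 := by norm_num [Nat.factorial]
  rw [h2] at h1
  have h3 : 0 < (κ * M) ^ 9 / 362880 := by positivity
  rw [Real.exp_neg]
  calc (Real.exp (κ * M))⁻¹ ≤ ((κ * M) ^ 9 / 362880)⁻¹ := inv_anti₀ h3 h1
    _ = (362880 / κ ^ 9) / M ^ 9 := by
        rw [mul_pow]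
        field_simp

/-- The loss for one scale, in the thick form, with the majorants. -/
theorem loss_thick69 : ∃ C M₀ T₀ : ℝ, 0 < C ∧ 1 ≤ M₀ ∧ ∀ T M : ℝ, T₀ ≤ T → M₀ ≤ M → M ≤ Real.log T → ∃ B : Set ℝ,
    volume B ≤ ENNReal.ofReal (C / M ^ 9 * T) ∧ ∀ t' ∈ Pool.Agent.Helper57.TX.JJ T, t' ∉ B →
      |SS (XX T M) t'| ≤ M ∧ ∀ t, |t - t'| ≤ sp T →
        |NX (XX T M) t - (MM (XX T M) t - SS (XX T M) t)| ≤ C / √M ∧
        near T M (100 * Real.log M) t ≤ C * M ∧ far T M (100 * Real.log M) t ≤ C / M ^ 2 := by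
  obtain ⟨C1, hC1, h1⟩ := Pool.Agent.Helper87.UG.loss_pt
  obtain ⟨C2, c2, hC2, hc2, h2⟩ := Pool.Agent.Helper87.UG.near_pt
  obtain ⟨C3, Y0, T3, hC3, h3⟩ := Pool.Agent.Helper53.TX.far0
  obtain ⟨κ, M4, T4, hκ, hM4, h4⟩ := ss_tail
  obtain ⟨C5, T5, hC5, h5⟩ := mm_main69
  have hm : 0 < min 1 c2 := lt_min one_pos hc2
  refine ⟨362880 / κ ^ 9 + C3 + C1 * (320000 * (C2 * (3 + C5)) + 2) + 2 * (C2 * (3 + C5)) + 2,
    max (max 16 M4) (max ((200 / min 1 c2) ^ 2) (Real.exp |Y0|)), max (max T3 T4) (max T5 3), by positivity,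
    le_max_of_le_left (le_max_of_le_left (by norm_num)), fun T M hT hM hMT => ?_⟩
  simp only [max_le_iff] at hT hM
  obtain ⟨⟨hT3, hT4⟩, hT5, hT33⟩ := hT
  obtain ⟨⟨hM16, hMM4⟩, hMc, hMY⟩ := hM
  have hM0 : 0 < M := by linarith
  have hM1 : 1 ≤ M := by linarith
  have hT0 : 0 < T := by linarith
  have hT1 : 1 < T := by linarith
  have hL : 0 < Real.log T := by linarith
  have hlogM : 0 < Real.log M := Real.log_pos (by linarith)
  have hsq : 0 < √M := Real.sqrt_pos.2 hM0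
  have hsq1 : 1 ≤ √M := by rw [Real.one_le_sqrt]; exact hM1
  have hss : √M * √M = M := Real.mul_self_sqrt hM0.le
  obtain ⟨Y, hY⟩ : ∃ Y, Y = 100 * Real.log M := ⟨_, rfl⟩
  rw [← hY]
  have hY0 : 0 < Y := by rw [hY]; positivity
  have hlog1 : Real.log M ≤ 2 * √M := by
    have := Real.log_le_rpow_div hM0.le (show (0:ℝ) < 1 / 2 by norm_num)
    rw [← Real.sqrt_eq_rpow] at this
    linarith
  have hlog2 : Real.log M ^ 2 ≤ 16 * √M := by
    have h := Real.log_le_rpow_div hM0.le (show (0:ℝ) < 1 / 4 by norm_num)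
    have e : (M ^ (1 / 4 : ℝ)) ^ 2 = √M := by
      rw [← Real.rpow_natCast, ← Real.rpow_mul hM0.le, Real.sqrt_eq_rpow]
      norm_num
    have e2 : Real.log M ≤ 4 * M ^ (1 / 4 : ℝ) := by linarith
    calc Real.log M ^ 2 ≤ (4 * M ^ (1 / 4 : ℝ)) ^ 2 := by gcongr
      _ = 16 * √M := by rw [mul_pow, e]; norm_num
  have hYm : Y ≤ min 1 c2 * M := by
    have e1 : 200 / min 1 c2 ≤ √M := Real.le_sqrt_of_sq_le hMc
    have e2 : 200 ≤ √M * min 1 c2 := by rwa [div_le_iff₀ hm] at e1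
    calc Y ≤ 200 * √M := by rw [hY]; linarith
      _ ≤ (√M * min 1 c2) * √M := by gcongr
      _ = min 1 c2 * (√M * √M) := by ring
      _ = min 1 c2 * M := by rw [hss]
  have hYM : Y ≤ M := by
    refine hYm.trans ((mul_le_mul_of_nonneg_right (min_le_left _ _) hM0.le).trans ?_)
    rw [one_mul]
  have hYc : Y ≤ c2 * M := hYm.trans (mul_le_mul_of_nonneg_right (min_le_right _ _) hM0.le)
  have hYY : Y0 ≤ Y := by
    have e1 : |Y0| ≤ Real.log M := by
      rw [Real.le_log_iff_exp_le hM0]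
      exact hMY
    have e2 := le_abs_self Y0
    rw [hY]
    linarith
  obtain ⟨i3, b3⟩ := h3 T M Y hT3 hM16 hMT hYY
  have b4 := h4 T M hT4 hMM4 hMT
  have hJ : MeasurableSet (Pool.Agent.Helper57.TX.JJ T) := measurableSet_Icc
  have hf0 : ∀ t, 0 ≤ far T M Y t := fun t => Pool.Agent.Helper87.UG.far_nonneg T M Y t
  have hexp : Real.exp (-(Y / 8)) ≤ 1 / M ^ 12 := by
    have e1 : M ^ 12 = Real.exp (12 * Real.log M) := by
      rw [← Real.rpow_natCast, Real.rpow_def_of_pos hM0]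
      norm_num [mul_comm]
    rw [e1, one_div, ← Real.exp_neg]
    apply Real.exp_le_exp.2
    rw [hY]
    linarith
  have m3 : volume {t : ℝ | t ∈ Pool.Agent.Helper57.TX.JJ T ∧ 1 / M ^ 2 < far T M Y t} ≤
      ENNReal.ofReal (C3 / M ^ 9 * T) := by
    refine Pool.Agent.Helper87.TX.markov hJ i3 hf0 (by positivity) (b3.trans ?_)
    calc C3 * M * Real.exp (-(Y / 8)) * T ≤ C3 * M * (1 / M ^ 12) * T := by gcongr
      _ = 1 / M ^ 2 * (C3 / M ^ 9 * T) := by field_simp
  refine ⟨{t : ℝ | t ∈ Pool.Agent.Helper57.TX.JJ T ∧ M < |SS (XX T M) t|} ∪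
    {t : ℝ | t ∈ Pool.Agent.Helper57.TX.JJ T ∧ 1 / M ^ 2 < far T M Y t}, ?_, ?_⟩
  · refine (measure_union_le _ _).trans ((add_le_add b4 m3).trans ?_)
    rw [← ENNReal.ofReal_add (by positivity) (by positivity)]
    apply ENNReal.ofReal_le_ofReal
    calc Real.exp (-(κ * M)) * T + C3 / M ^ 9 * T ≤ (362880 / κ ^ 9) / M ^ 9 * T + C3 / M ^ 9 * T := by
          have := exp_tail hκ hM0
          gcongr
      _ = (362880 / κ ^ 9 + C3) / M ^ 9 * T := by ring
      _ ≤ _ := by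
          apply mul_le_mul_of_nonneg_right _ hT0.le
          apply div_le_div_of_nonneg_right _ (by positivity)
          have : 0 < C1 * (320000 * (C2 * (3 + C5)) + 2) + 2 * (C2 * (3 + C5)) + 2 := by positivity
          linarith
  · intro t' ht' hB
    simp only [mem_union, mem_setOf_eq, not_or, not_and, not_lt] at hB
    have c1 := hB.1 ht'
    have c2' := hB.2 ht'
    refine ⟨c1, fun t htt => ?_⟩
    have n1 : near T M Y t' ≤ C2 * (3 + C5) * M := by
      have e1 := h2 T M Y t' hT33 hM0 hY0 hYc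
      have e2 := (abs_le.1 (h5 T M t' hT5 hM1 hMT ht')).2
      have e3 : C5 * (M / Real.log T) ≤ C5 * M := by
        have : M / Real.log T ≤ 1 := by rw [div_le_one hL]; exact hMT
        have : M / Real.log T ≤ M := by linarith
        gcongr
      have e4 := neg_abs_le (SS (XX T M) t')
      have e5 : 1 / M ^ 2 ≤ M := by
        rw [div_le_iff₀ (by positivity)]
        have : 1 ≤ M ^ 3 := one_le_pow₀ hM1
        nlinarith
      calc near T M Y t' ≤ C2 * (MM (XX T M) t' - SS (XX T M) t' + far T M Y t') := e1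
        _ ≤ C2 * ((3 + C5) * M) := by
            apply mul_le_mul_of_nonneg_left _ hC2.le
            nlinarith
        _ = _ := by ring
    have n2 := Pool.Agent.Helper99.NR.near_comp Y hT1 hM16 htt
    have n3 := Pool.Agent.Helper99.NR.far_comp Y hT1 hM16 htt
    have hn0 := Pool.Agent.Helper87.UG.near_nonneg T M Y t
    have hf := Pool.Agent.Helper87.UG.far_nonneg T M Y t
    have n4 : near T M Y t ≤ 2 * (C2 * (3 + C5)) * M := by nlinarith
    have n5 : far T M Y t ≤ 2 / M ^ 2 := by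
      calc far T M Y t ≤ 2 * (1 / M ^ 2) := by linarith
        _ = _ := by ring
    have hK : 0 < 362880 / κ ^ 9 + C3 := by positivity
    have hK1 : 0 < C1 * (320000 * (C2 * (3 + C5)) + 2) := by positivity
    have hK2 : 0 < 2 * (C2 * (3 + C5)) := by positivity
    refine ⟨?_, ?_, ?_⟩
    · have e1 := h1 T M Y t 1 hT33 hM0 hY0 hYM (Or.inl rfl)
      rw [div_one] at e1
      have e2 : (Y / M) ^ 2 * near T M Y t ≤ 320000 * (C2 * (3 + C5)) / √M := by
        calc (Y / M) ^ 2 * near T M Y t ≤ (Y / M) ^ 2 * (2 * (C2 * (3 + C5)) * M) := by gcongr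
          _ = 10000 * Real.log M ^ 2 * (2 * (C2 * (3 + C5))) / M := by
              rw [hY]
              field_simp
              ring
          _ ≤ 10000 * (16 * √M) * (2 * (C2 * (3 + C5))) / M := by gcongr
          _ = 320000 * (C2 * (3 + C5)) / √M := by
              rw [div_eq_div_iff hM0.ne' hsq.ne']
              linear_combination 320000 * (C2 * (3 + C5)) * hss
      have e3 : 2 / M ^ 2 ≤ 2 / √M := by
        apply div_le_div_of_nonneg_left (by norm_num) hsq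
        nlinarith
      calc |NX (XX T M) t - (MM (XX T M) t - SS (XX T M) t)| ≤ C1 * ((Y / M) ^ 2 * near T M Y t + far T M Y t) := e1
        _ ≤ C1 * (320000 * (C2 * (3 + C5)) / √M + 2 / √M) := by
            apply mul_le_mul_of_nonneg_left _ hC1.le
            linarith
        _ = C1 * (320000 * (C2 * (3 + C5)) + 2) / √M := by ring
        _ ≤ _ := by
            apply div_le_div_of_nonneg_right _ hsq.le
            linarith
    · refine n4.trans (mul_le_mul_of_nonneg_right ?_ hM0.le)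
      linarith
    · refine n5.trans (div_le_div_of_nonneg_right ?_ (by positivity))
      linarith

/-- the loss for one scale -/
theorem loss_tail : ∃ C M₀ T₀ : ℝ, 0 < C ∧ 1 ≤ M₀ ∧ ∀ T M : ℝ, T₀ ≤ T → M₀ ≤ M → M ≤ Real.log T →
    volume {t : ℝ | t ∈ Pool.Agent.Helper57.TX.JJ T ∧ C / √M < |NX (XX T M) t - (MM (XX T M) t - SS (XX T M) t)|} ≤
      ENNReal.ofReal (C / M ^ 9 * T) := by
  obtain ⟨C, M₀, T₀, hC, hM₀, h⟩ := loss_thick69
  refine ⟨C, M₀, max T₀ 2, hC, hM₀, fun T M hT hM hMT => ?_⟩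
  obtain ⟨B, hB, hB2⟩ := h T M ((le_max_left _ _).trans hT) hM hMT
  have hT2 : 2 ≤ T := (le_max_right _ _).trans hT
  refine (measure_mono ?_).trans hB
  rintro t ⟨ht, ht2⟩
  by_contra hn
  have hsp : 0 ≤ sp T := by
    have := Real.log_pos (show 1 < T by linarith)
    have := Real.pi_pos
    unfold sp
    positivity
  have := ((hB2 t ht hn).2 t (by rw [sub_self, abs_zero]; exact hsp)).1
  linarith

/-- the loss for one scale, thick form -/
theorem loss_thick : ∃ C M₀ T₀ : ℝ, 0 < C ∧ 1 ≤ M₀ ∧ ∀ T M : ℝ, T₀ ≤ T → M₀ ≤ M → M ≤ Real.log T → ∃ E : Set ℝ,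
    volume E ≤ ENNReal.ofReal (C / M ^ (1 / 4 : ℝ) * T) ∧ ∀ t ∈ Icc (T / 2) (3 * T), ∀ u : ℝ, |u - t| ≤ sp T →
      C / M ^ (1 / 4 : ℝ) < |NX (XX T M) u - (MM (XX T M) u - SS (XX T M) u)| → t ∈ E := by
  obtain ⟨C, M₀, T₀, hC, hM₀, h⟩ := loss_thick69
  refine ⟨C, M₀, max T₀ 0, hC, hM₀, fun T M hT hM hMT => ?_⟩
  obtain ⟨B, hB, hB2⟩ := h T M ((le_max_left _ _).trans hT) hM hMT
  have hT0 : 0 ≤ T := (le_max_right _ _).trans hT
  have hM1 : 1 ≤ M := hM₀.trans hM
  have hM0 : 0 < M := by linarith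
  have hr : 0 < M ^ (1 / 4 : ℝ) := by positivity
  have r1 : M ^ (1 / 4 : ℝ) ≤ M ^ 9 := by
    rw [← Real.rpow_natCast]
    exact Real.rpow_le_rpow_of_exponent_le hM1 (by norm_num)
  have r2 : M ^ (1 / 4 : ℝ) ≤ √M := by
    rw [Real.sqrt_eq_rpow]
    exact Real.rpow_le_rpow_of_exponent_le hM1 (by norm_num)
  refine ⟨B, hB.trans (ENNReal.ofReal_le_ofReal (mul_le_mul_of_nonneg_right
    (div_le_div_of_nonneg_left hC.le hr r1) hT0)), fun t ht u hut hlt => ?_⟩
  by_contra hn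
  have ht' : t ∈ Pool.Agent.Helper57.TX.JJ T := ⟨ht.1, ht.2.trans (by linarith)⟩
  have g := ((hB2 t ht' hn).2 u hut).1
  have g2 : C / √M ≤ C / M ^ (1 / 4 : ℝ) := div_le_div_of_nonneg_left hC.le hr r2
  linarith

/-- the number of the zeros seen by one scale -/
theorem nx_tail : ∃ C M₀ T₀ : ℝ, 0 < C ∧ 1 ≤ M₀ ∧ ∀ T M : ℝ, T₀ ≤ T → M₀ ≤ M → M ≤ Real.log T →
    volume {t : ℝ | t ∈ Pool.Agent.Helper57.TX.JJ T ∧ 4 * M < NX (XX T M) t} ≤ ENNReal.ofReal (C / M ^ 9 * T) := by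
  obtain ⟨C, M₀, T₀, hC, hM₀, h⟩ := loss_thick69
  obtain ⟨C5, T5, hC5, h5⟩ := mm_main69
  refine ⟨C, max M₀ C, max (max T₀ 2) (max T5 (Real.exp C5)), hC, hM₀.trans (le_max_left _ _), fun T M hT hM hMT => ?_⟩
  simp only [max_le_iff] at hT hM
  obtain ⟨⟨hT0, hT2⟩, hT5, hTe⟩ := hT
  obtain ⟨hM0, hMC⟩ := hM
  obtain ⟨B, hB, hB2⟩ := h T M hT0 hM0 hMT
  have hM1 : 1 ≤ M := hM₀.trans hM0
  have hMp : 0 < M := by linarith
  refine (measure_mono ?_).trans hB
  rintro t ⟨ht, ht2⟩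
  by_contra hn
  have hlog : C5 ≤ Real.log T := by
    rw [Real.le_log_iff_exp_le (by linarith)]
    exact hTe
  have hsp : 0 ≤ sp T := by
    have := Real.log_pos (show 1 < T by linarith)
    have := Real.pi_pos
    unfold sp
    positivity
  obtain ⟨g1, g2⟩ := hB2 t ht hn
  have g3 := ((abs_le.1 (g2 t (by rw [sub_self, abs_zero]; exact hsp)).1)).2
  have g4 := (abs_le.1 (h5 T M t hT5 hM1 hMT ht)).2
  have g5 := neg_abs_le (SS (XX T M) t)
  have g6 : C5 * (M / Real.log T) ≤ M := by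
    rw [mul_div_assoc', div_le_iff₀ (by linarith)]
    nlinarith
  have g7 : C / √M ≤ M := by
    have hs : 1 ≤ √M := by rw [Real.one_le_sqrt]; exact hM1
    exact (div_le_self hC.le hs).trans hMC
  linarith

end Pool.Agent.Helper69.NR
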